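import Mathlib

/-!
# The fourth central difference of `s_+^q`, `-1 < q < 0`
-/

set_option autoImplicit false

open scoped BigOperators Topology
open MeasureTheory Set Filter

namespace Pool.Agent.Lib_helper94.G56

/-- `s_+^q` -/
noncomputable def pz (q s : ℝ) : ℝ := (max s 0) ^ q

/-- the fourth central difference of `s_+^q` -/
noncomputable def Wh (q h s : ℝ) : ℝ :=
  pz q (s + 2 * h) + pz q (s - 2 * h) - 4 * (pz q (s + h) + pz q (s - h)) + 6 * pz q s

theorem pz_of_pos {q s : ℝ} (hs : 0 < s) : pz q s = s ^ q := by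
  unfold pz
  rw [max_eq_left hs.le]

theorem pz_of_nonpos {q s : ℝ} (hq : q ≠ 0) (hs : s ≤ 0) : pz q s = 0 := by
  unfold pz
  rw [max_eq_right hs, Real.zero_rpow hq]

theorem pz_nonneg (q s : ℝ) : 0 ≤ pz q s := Real.rpow_nonneg (le_max_right _ _) _

theorem pz_eq_indicator {q : ℝ} (hq : q ≠ 0) :
    pz q = (Ioi (0 : ℝ)).indicator (fun x => x ^ q) := by
  funext x
  by_cases hx : 0 < x
  · rw [indicator_of_mem (show x ∈ Ioi (0 : ℝ) from hx), pz_of_pos hx]
  · rw [indicator_of_notMem (show x ∉ Ioi (0 : ℝ) from hx), pz_of_nonpos hq (not_lt.1 hx)]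

theorem lin5 {μ : Measure ℝ} {f1 f2 f3 f4 f0 : ℝ → ℝ} (i1 : Integrable f1 μ)
    (i2 : Integrable f2 μ) (i3 : Integrable f3 μ) (i4 : Integrable f4 μ) (i0 : Integrable f0 μ) :
    Integrable (fun x => f1 x + f2 x - 4 * (f3 x + f4 x) + 6 * f0 x) μ ∧
    ∫ x, (f1 x + f2 x - 4 * (f3 x + f4 x) + 6 * f0 x) ∂μ =
      ((∫ x, f1 x ∂μ) + ∫ x, f2 x ∂μ) - 4 * ((∫ x, f3 x ∂μ) + ∫ x, f4 x ∂μ) +
        6 * ∫ x, f0 x ∂μ := by
  have h12 : Integrable (fun x => f1 x + f2 x) μ := i1.add i2
  have h34' : Integrable (fun x => f3 x + f4 x) μ := i3.add i4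
  have h34 : Integrable (fun x => 4 * (f3 x + f4 x)) μ := h34'.const_mul 4
  have h : Integrable (fun x => f1 x + f2 x - 4 * (f3 x + f4 x)) μ := h12.sub h34
  have h0 : Integrable (fun x => 6 * f0 x) μ := i0.const_mul 6
  refine ⟨h.add h0, ?_⟩
  rw [integral_add h h0, integral_sub h12 h34, integral_add i1 i2, integral_const_mul,
    integral_const_mul, integral_add i3 i4]

theorem gam_rep {q s : ℝ} (hq : q < 0) (hs : 0 < s) :
    IntegrableOn (fun t : ℝ => t ^ (-q - 1) * Real.exp (-(s * t))) (Ioi 0) ∧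
    ∫ t in Ioi (0 : ℝ), t ^ (-q - 1) * Real.exp (-(s * t)) = s ^ q * Real.Gamma (-q) := by
  constructor
  · have h := integrableOn_rpow_mul_exp_neg_mul_rpow (p := 1) (s := -q - 1) (b := s)
      (by linarith) zero_lt_one hs
    refine h.congr_fun (fun t _ => ?_) measurableSet_Ioi
    simp only [Real.rpow_one, neg_mul]
  · rw [Real.integral_rpow_mul_exp_neg_mul_Ioi (by linarith) hs, one_div, Real.inv_rpow hs.le,
      Real.rpow_neg hs.le, inv_inv]

/-- the sign beyond `2h` -/
theorem wh_nonneg {q h s : ℝ} (hq : q < 0) (hh : 0 < h) (hs : 2 * h < s) : 0 ≤ Wh q h s := by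
  have p0 : 0 < s := by linarith
  have p1 : 0 < s + 2 * h := by linarith
  have p2 : 0 < s - 2 * h := by linarith
  have p3 : 0 < s + h := by linarith
  have p4 : 0 < s - h := by linarith
  have hG : 0 < Real.Gamma (-q) := Real.Gamma_pos_of_pos (by linarith)
  obtain ⟨i0, e0⟩ := gam_rep hq p0
  obtain ⟨i1, e1⟩ := gam_rep hq p1
  obtain ⟨i2, e2⟩ := gam_rep hq p2
  obtain ⟨i3, e3⟩ := gam_rep hq p3
  obtain ⟨i4, e4⟩ := gam_rep hq p4
  have key : Wh q h s * Real.Gamma (-q) = ∫ t in Ioi (0 : ℝ), t ^ (-q - 1) *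
      (Real.exp (-((s + 2 * h) * t)) + Real.exp (-((s - 2 * h) * t)) -
        4 * (Real.exp (-((s + h) * t)) + Real.exp (-((s - h) * t))) +
        6 * Real.exp (-(s * t))) := by
    have e : (fun t : ℝ => t ^ (-q - 1) *
      (Real.exp (-((s + 2 * h) * t)) + Real.exp (-((s - 2 * h) * t)) -
        4 * (Real.exp (-((s + h) * t)) + Real.exp (-((s - h) * t))) +
        6 * Real.exp (-(s * t)))) = fun t : ℝ =>
        ((t ^ (-q - 1) * Real.exp (-((s + 2 * h) * t)) +
          t ^ (-q - 1) * Real.exp (-((s - 2 * h) * t))) -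
        4 * (t ^ (-q - 1) * Real.exp (-((s + h) * t)) +
          t ^ (-q - 1) * Real.exp (-((s - h) * t)))) +
        6 * (t ^ (-q - 1) * Real.exp (-(s * t))) := by
      funext t; ring
    rw [e, (lin5 i1 i2 i3 i4 i0).2, e0, e1, e2, e3, e4]
    unfold Wh
    rw [pz_of_pos p0, pz_of_pos p1, pz_of_pos p2, pz_of_pos p3, pz_of_pos p4]
    ring
  have hnn : 0 ≤ Wh q h s * Real.Gamma (-q) := by
    rw [key]
    refine setIntegral_nonneg measurableSet_Ioi fun t ht => ?_
    have ht0 : (0 : ℝ) < t := ht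
    refine mul_nonneg (Real.rpow_nonneg ht0.le _) ?_
    set y := Real.exp (h * t) with hy
    have hy0 : 0 < y := Real.exp_pos _
    set a := Real.exp (-(s * t)) with ha
    have ha0 : 0 < a := Real.exp_pos _
    have f1 : Real.exp (-((s + h) * t)) = a * y⁻¹ := by
      rw [ha, hy, ← Real.exp_neg, ← Real.exp_add]
      congr 1; ring
    have f2 : Real.exp (-((s - h) * t)) = a * y := by
      rw [ha, hy, ← Real.exp_add]
      congr 1; ring
    have f3 : Real.exp (-((s + 2 * h) * t)) = a * y⁻¹ * y⁻¹ := by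
      rw [ha, hy, ← Real.exp_neg, ← Real.exp_add, ← Real.exp_add]
      congr 1; ring
    have f4 : Real.exp (-((s - 2 * h) * t)) = a * y * y := by
      rw [ha, hy, ← Real.exp_add, ← Real.exp_add]
      congr 1; ring
    rw [f1, f2, f3, f4]
    have : a * y⁻¹ * y⁻¹ + a * y * y - 4 * (a * y⁻¹ + a * y) + 6 * a =
        a * ((y - 1) ^ 4 * (y ^ 2)⁻¹) := by
      field_simp
      ring
    rw [this]
    positivity
  by_contra hc
  rw [not_le] at hc
  have := mul_neg_of_neg_of_pos hc hG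
  linarith

theorem pz_interval {q : ℝ} (h1 : -1 < q) (h0 : q < 0) (a b : ℝ) :
    IntervalIntegrable (pz q) volume a b := by
  rw [pz_eq_indicator h0.ne]
  have h := intervalIntegral.intervalIntegrable_rpow' (a := a) (b := b) h1
  rw [intervalIntegrable_iff] at h ⊢
  exact h.indicator measurableSet_Ioi

theorem pz_comp_interval {q : ℝ} (h1 : -1 < q) (h0 : q < 0) (a b c : ℝ) :
    IntervalIntegrable (fun s => pz q (s + c)) volume a b := by
  have h := (pz_interval h1 h0 (a + c) (b + c)).comp_add_right c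
  simpa using h

theorem pz_integral {q : ℝ} (h1 : -1 < q) (h0 : q < 0) {a b : ℝ} (ha : a ≤ 0) (hb : 0 ≤ b) :
    ∫ s in a..b, pz q s = b ^ (q + 1) / (q + 1) := by
  rw [← intervalIntegral.integral_add_adjacent_intervals (pz_interval h1 h0 a 0)
    (pz_interval h1 h0 0 b)]
  have e1 : ∫ s in a..0, pz q s = 0 := by
    rw [intervalIntegral.integral_of_le ha]
    refine setIntegral_eq_zero_of_forall_eq_zero fun s hs => pz_of_nonpos h0.ne hs.2
  have e2 : ∫ s in (0 : ℝ)..b, pz q s = ∫ s in (0 : ℝ)..b, s ^ q := by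
    rw [intervalIntegral.integral_of_le hb, intervalIntegral.integral_of_le hb]
    refine setIntegral_congr_fun measurableSet_Ioc fun s hs => pz_of_pos hs.1
  rw [e1, e2, integral_rpow (Or.inl h1), Real.zero_rpow (by linarith), sub_zero, zero_add]

theorem pz_comp_integral {q : ℝ} (h1 : -1 < q) (h0 : q < 0) {a b c : ℝ} (ha : a + c ≤ 0)
    (hb : 0 ≤ b + c) : ∫ s in a..b, pz q (s + c) = (b + c) ^ (q + 1) / (q + 1) := by
  rw [intervalIntegral.integral_comp_add_right (fun s => pz q s), pz_integral h1 h0 ha hb]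

theorem abs_wh_le (q h s : ℝ) : |Wh q h s| ≤
    pz q (s + 2 * h) + pz q (s + -(2 * h)) + 4 * (pz q (s + h) + pz q (s + -h)) +
      6 * pz q (s + 0) := by
  have g1 := pz_nonneg q (s + 2 * h)
  have g2 := pz_nonneg q (s + -(2 * h))
  have g3 := pz_nonneg q (s + h)
  have g4 := pz_nonneg q (s + -h)
  have g5 := pz_nonneg q (s + 0)
  have e2 : pz q (s - 2 * h) = pz q (s + -(2 * h)) := by rw [sub_eq_add_neg]
  have e4 : pz q (s - h) = pz q (s + -h) := by rw [sub_eq_add_neg]
  have e5 : pz q s = pz q (s + 0) := by rw [add_zero]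
  unfold Wh
  rw [e2, e4, e5, abs_le]
  constructor <;> linarith

theorem wh_interval {q : ℝ} (h1 : -1 < q) (h0 : q < 0) (h a b : ℝ) :
    IntervalIntegrable (Wh q h) volume a b := by
  have g := pz_comp_interval h1 h0 a b
  have g2 := g (-(2 * h))
  have g4 := g (-h)
  have g0 := pz_interval h1 h0 a b
  simp only [← sub_eq_add_neg] at g2 g4
  exact (((g (2 * h)).add g2).sub (((g h).add g4).const_mul 4)).add (g0.const_mul 6)

/-- the integral of `|Wh|` near `0` -/
theorem wh_abs_integral {q : ℝ} (h1 : -1 < q) (h0 : q < 0) {h : ℝ} (hh : 0 < h) :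
    IntegrableOn (Wh q h) (Ioc (-(2 * h)) (2 * h)) ∧
    ∫ s in Ioc (-(2 * h)) (2 * h), |Wh q h s| ≤ 16 * ((4 * h) ^ (q + 1) / (q + 1)) := by
  have hle : -(2 * h) ≤ 2 * h := by linarith
  have hI := wh_interval h1 h0 h (-(2 * h)) (2 * h)
  refine ⟨(intervalIntegrable_iff_integrableOn_Ioc_of_le hle).1 hI, ?_⟩
  rw [← intervalIntegral.integral_of_le hle]
  have g := pz_comp_interval h1 h0 (-(2 * h)) (2 * h)
  have key : ∫ s in (-(2 * h))..(2 * h), |Wh q h s| ≤ ∫ s in (-(2 * h))..(2 * h),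
      (pz q (s + 2 * h) + pz q (s + -(2 * h)) + 4 * (pz q (s + h) + pz q (s + -h)) +
      6 * pz q (s + 0)) := by
    refine intervalIntegral.integral_mono_on hle hI.abs ?_ fun s _ => abs_wh_le q h s
    exact (((g _).add (g _)).add (((g _).add (g _)).const_mul 4)).add ((g _).const_mul 6)
  refine key.trans ?_
  rw [intervalIntegral.integral_add (((g _).add (g _)).add (((g _).add (g _)).const_mul 4))
      ((g _).const_mul 6),
    intervalIntegral.integral_add ((g _).add (g _)) (((g _).add (g _)).const_mul 4),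
    intervalIntegral.integral_add (g _) (g _), intervalIntegral.integral_const_mul,
    intervalIntegral.integral_const_mul, intervalIntegral.integral_add (g _) (g _)]
  have hb : ∀ c : ℝ, -(2 * h) ≤ c → c ≤ 2 * h →
      ∫ s in (-(2 * h))..(2 * h), pz q (s + c) ≤ (4 * h) ^ (q + 1) / (q + 1) := by
    intro c c1 c2
    rw [pz_comp_integral h1 h0 (by linarith) (by linarith)]
    refine div_le_div_of_nonneg_right ?_ (by linarith)
    exact Real.rpow_le_rpow (by linarith) (by linarith) (by linarith)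
  have b1 := hb (2 * h) (by linarith) (by linarith)
  have b2 := hb (-(2 * h)) (by linarith) (by linarith)
  have b3 := hb h (by linarith) (by linarith)
  have b4 := hb (-h) (by linarith) (by linarith)
  have b5 := hb 0 (by linarith) (by linarith)
  linarith

/-- the lower bound -/
theorem wh_low {q : ℝ} (h1 : -1 < q) (h0 : q < 0) {h C : ℝ} (hh : 0 < h) (hC : 0 ≤ C)
    {u : ℝ → ℝ} (hu : ∀ s, |s| ≤ 2 * h → |u s| ≤ C * s ^ 4) (hu0 : ∀ s, 0 < s → 0 ≤ u s)
    (hint : IntegrableOn (fun s => u s * Wh q h s) (Ioi (-(2 * h)))) :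
    -(256 * C * h ^ 4 * ((4 * h) ^ (q + 1) / (q + 1))) ≤
      ∫ s in Ioi (-(2 * h)), u s * Wh q h s := by
  obtain ⟨iW, bW⟩ := wh_abs_integral h1 h0 hh
  have hle : -(2 * h) ≤ 2 * h := by linarith
  have hun : Ioi (-(2 * h)) = Ioc (-(2 * h)) (2 * h) ∪ Ioi (2 * h) := by
    rw [Ioc_union_Ioi_eq_Ioi hle]
  have hd : Disjoint (Ioc (-(2 * h)) (2 * h)) (Ioi (2 * h)) := by
    rw [Set.disjoint_left]
    intro x hx hx2
    exact absurd hx2 (not_lt.2 hx.2)
  rw [hun] at hint ⊢
  have i1 := hint.left_of_union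
  have i2 := hint.right_of_union
  rw [setIntegral_union hd measurableSet_Ioi i1 i2]
  have n2 : 0 ≤ ∫ s in Ioi (2 * h), u s * Wh q h s :=
    setIntegral_nonneg measurableSet_Ioi fun s hs =>
      mul_nonneg (hu0 s (by have : 2 * h < s := hs; linarith)) (wh_nonneg h0 hh hs)
  have n1 : ∫ s in Ioc (-(2 * h)) (2 * h), -(16 * C * h ^ 4) * |Wh q h s| ≤
      ∫ s in Ioc (-(2 * h)) (2 * h), u s * Wh q h s := by
    refine setIntegral_mono_on ((iW.abs).const_mul _) i1 measurableSet_Ioc fun s hs => ?_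
    have hs1 : |s| ≤ 2 * h := abs_le.2 ⟨hs.1.le, hs.2⟩
    have k1 := hu s hs1
    have k2 : s ^ 4 ≤ 16 * h ^ 4 := by
      have : |s| ^ 4 ≤ (2 * h) ^ 4 := pow_le_pow_left₀ (abs_nonneg s) hs1 4
      have e : |s| ^ 4 = s ^ 4 := by
        have : |s| ^ 4 = (|s| ^ 2) ^ 2 := by ring
        rw [this, sq_abs]; ring
      rw [e] at this
      nlinarith
    have k3 : |u s| ≤ 16 * C * h ^ 4 := by
      calc |u s| ≤ C * s ^ 4 := k1
        _ ≤ C * (16 * h ^ 4) := mul_le_mul_of_nonneg_left k2 hC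
        _ = _ := by ring
    have k4 : -(|u s| * |Wh q h s|) ≤ u s * Wh q h s := by
      rw [← abs_mul]
      exact neg_abs_le _
    have k5 : |u s| * |Wh q h s| ≤ 16 * C * h ^ 4 * |Wh q h s| :=
      mul_le_mul_of_nonneg_right k3 (abs_nonneg _)
    linarith
  rw [integral_const_mul] at n1
  have n3 : 16 * C * h ^ 4 * ∫ s in Ioc (-(2 * h)) (2 * h), |Wh q h s| ≤
      16 * C * h ^ 4 * (16 * ((4 * h) ^ (q + 1) / (q + 1))) :=
    mul_le_mul_of_nonneg_left bW (by positivity)
  linarith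

theorem wh_eq_zero {q : ℝ} (h0 : q < 0) {h s : ℝ} (hh : 0 < h) (hs : s ≤ -(2 * h)) :
    Wh q h s = 0 := by
  unfold Wh
  rw [pz_of_nonpos h0.ne (by linarith), pz_of_nonpos h0.ne (by linarith),
    pz_of_nonpos h0.ne (by linarith), pz_of_nonpos h0.ne (by linarith),
    pz_of_nonpos h0.ne (by linarith)]
  ring

/-- one shifted integral -/
theorem sh_one {q : ℝ} (h1 : -1 < q) (h0 : q < 0) {F : ℝ → ℝ} (hF : Continuous F)
    (hF1 : ∀ s, 1 ≤ s → F s = 0) (y : ℝ) :
    IntegrableOn (fun s => s ^ q * F (s - y)) (Ioi 0) ∧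
    Integrable (fun s => F s * pz q (s + y)) ∧
    ∫ s in Ioi (0 : ℝ), s ^ q * F (s - y) = ∫ s, F s * pz q (s + y) := by
  set b : ℝ := max 1 (-y) with hb
  have hle : -y ≤ b := le_max_right _ _
  have hI : IntegrableOn (fun s => F s * pz q (s + y)) (Ioc (-y) b) := by
    have g := (pz_comp_interval h1 h0 (-y) b y).continuousOn_mul (hF.continuousOn)
    exact (intervalIntegrable_iff_integrableOn_Ioc_of_le hle).1 g
  have hsup : ∀ s, s ∉ Ioc (-y) b → F s * pz q (s + y) = 0 := by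
    intro s hs
    by_cases h2 : -y < s
    · have h3 : b < s := by
        by_contra hc
        exact hs ⟨h2, not_lt.1 hc⟩
      rw [hF1 s ((le_max_left _ _).trans h3.le), zero_mul]
    · rw [pz_of_nonpos h0.ne (by linarith [not_lt.1 h2]), mul_zero]
  have hint : Integrable (fun s => F s * pz q (s + y)) := by
    have e : (fun s => F s * pz q (s + y)) =
        (Ioc (-y) b).indicator (fun s => F s * pz q (s + y)) := by
      funext s
      by_cases hs : s ∈ Ioc (-y) b
      · rw [indicator_of_mem hs]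
      · rw [indicator_of_notMem hs, hsup s hs]
    rw [e]
    exact (integrable_indicator_iff measurableSet_Ioc).2 hI
  have hG : Integrable (fun s => pz q s * F (s - y)) := by
    have h2 := hint.comp_sub_right y
    refine h2.congr (Eventually.of_forall fun s => ?_)
    show F (s - y) * pz q (s - y + y) = pz q s * F (s - y)
    rw [sub_add_cancel, mul_comm]
  have hset : ∀ s ∈ Ioi (0 : ℝ), pz q s * F (s - y) = s ^ q * F (s - y) := fun s hs => by
    rw [pz_of_pos hs]
  refine ⟨(hG.integrableOn).congr_fun hset measurableSet_Ioi, hint, ?_⟩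
  rw [← setIntegral_congr_fun measurableSet_Ioi hset]
  have e1 : ∫ s in Ioi (0 : ℝ), pz q s * F (s - y) = ∫ s, pz q s * F (s - y) := by
    refine setIntegral_eq_integral_of_forall_compl_eq_zero fun s hs => ?_
    rw [pz_of_nonpos h0.ne (not_lt.1 hs), zero_mul]
  rw [e1, ← integral_add_right_eq_self (fun s => pz q s * F (s - y)) y]
  refine integral_congr_ae (Eventually.of_forall fun s => ?_)
  show pz q (s + y) * F (s + y - y) = F s * pz q (s + y)
  rw [add_sub_cancel_right, mul_comm]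

/-- the symmetrised integral -/
theorem sh_sym {q : ℝ} (h1 : -1 < q) (h0 : q < 0) {F : ℝ → ℝ} (hF : Continuous F)
    (hF1 : ∀ s, 1 ≤ s → F s = 0) (y : ℝ) :
    ∫ s in Ioi (0 : ℝ), s ^ q * (F (s - y) + F (s + y)) =
      (∫ s, F s * pz q (s + y)) + ∫ s, F s * pz q (s - y) := by
  obtain ⟨i1, -, e1⟩ := sh_one h1 h0 hF hF1 y
  obtain ⟨i2, -, e2⟩ := sh_one h1 h0 hF hF1 (-y)
  simp only [sub_neg_eq_add] at i2 e2
  simp only [← sub_eq_add_neg] at e2
  rw [← e1, ← e2, ← integral_add i1 i2]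
  refine setIntegral_congr_fun measurableSet_Ioi fun s _ => ?_
  show s ^ q * (F (s - y) + F (s + y)) = s ^ q * F (s - y) + s ^ q * F (s + y)
  ring

/-- **the fourth difference of the shifted integrals** -/
theorem sh_sum {q : ℝ} (h1 : -1 < q) (h0 : q < 0) {F : ℝ → ℝ} (hF : Continuous F)
    (hF1 : ∀ s, 1 ≤ s → F s = 0) {h : ℝ} (hh : 0 < h) :
    Integrable (fun s => F s * Wh q h s) ∧
    (∫ s in Ioi (0 : ℝ), s ^ q * (F (s - 2 * h) + F (s + 2 * h))) -
      4 * (∫ s in Ioi (0 : ℝ), s ^ q * (F (s - h) + F (s + h))) +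
      3 * (∫ s in Ioi (0 : ℝ), s ^ q * (F s + F s)) = ∫ s in Ioi (-(2 * h)), F s * Wh q h s := by
  have j : ∀ y, Integrable (fun s => F s * pz q (s + y)) := fun y =>
    (sh_one h1 h0 hF hF1 y).2.1
  have j' : ∀ y, Integrable (fun s => F s * pz q (s - y)) := fun y => by
    have := j (-y)
    simpa only [← sub_eq_add_neg] using this
  have j0 : Integrable (fun s => F s * pz q s) := by
    have := j 0
    simpa only [add_zero] using this
  have e : (fun s => F s * Wh q h s) = fun s => ((F s * pz q (s + 2 * h) +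
      F s * pz q (s - 2 * h)) - 4 * (F s * pz q (s + h) + F s * pz q (s - h))) +
      6 * (F s * pz q s) := by
    funext s
    unfold Wh
    ring
  have hI : Integrable (fun s => F s * Wh q h s) := by
    rw [e]
    exact (lin5 (j _) (j' _) (j _) (j' _) j0).1
  refine ⟨hI, ?_⟩
  have e1 : ∫ s in Ioi (-(2 * h)), F s * Wh q h s = ∫ s, F s * Wh q h s := by
    refine setIntegral_eq_integral_of_forall_compl_eq_zero fun s hs => ?_
    rw [wh_eq_zero h0 hh (not_lt.1 hs), mul_zero]
  have s0 := sh_sym h1 h0 hF hF1 0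
  simp only [sub_zero, add_zero] at s0
  rw [e1, sh_sym h1 h0 hF hF1 (2 * h), sh_sym h1 h0 hF hF1 h, s0, e,
    (lin5 (j (2 * h)) (j' (2 * h)) (j h) (j' h) j0).2]
  ring

end Pool.Agent.Lib_helper94.G56
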