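import Pool.Agent.Lib_helper90.MOD.LayZ
import Pool.Agent.Lib_helper94.G56.Wh

/-!
# The fourth difference of `In p A (D + y A) 6`
-/

set_option autoImplicit false

open scoped BigOperators ComplexOrder Kronecker MatrixOrder Topology
open MeasureTheory Set Matrix Filter

namespace Pool.Agent.Lib_helper94.G56

open Pool.Agent.RC Pool.Agent.RC.LAY INE SER DEC

variable {ι : Type} [Fintype ι] [DecidableEq ι]

/-- `In p A (D + y A) 6 + In p A (D - y A) 6` -/
noncomputable def SS (p : ℝ) (A D : Matrix ι ι ℂ) (y : ℝ) : ℝ :=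
  In p A (D + (y : ℂ) • A) 6 + In p A (D - (y : ℂ) • A) 6

theorem fx_shift (p : ℝ) (A D : Matrix ι ι ℂ) (y s : ℝ) :
    fx p A (D + (y : ℂ) • A) s + fx p A (D - (y : ℂ) • A) s =
      fx p A D (s - y) + fx p A D (s + y) := by
  have e1 : D + (y : ℂ) • A - (s : ℂ) • A = D - ((s - y : ℝ) : ℂ) • A := by
    push_cast
    rw [sub_smul]
    abel
  have e2 : -(D + (y : ℂ) • A) - (s : ℂ) • A = -D - ((s + y : ℝ) : ℂ) • A := by
    push_cast
    rw [add_smul]
    abel
  have e3 : D - (y : ℂ) • A - (s : ℂ) • A = D - ((s + y : ℝ) : ℂ) • A := by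
    push_cast
    rw [add_smul]
    abel
  have e4 : -(D - (y : ℂ) • A) - (s : ℂ) • A = -D - ((s - y : ℝ) : ℂ) • A := by
    push_cast
    rw [sub_smul]
    abel
  unfold fx
  rw [e1, e2, e3, e4]
  ring

theorem ss_eq {p : ℝ} (h0 : 0 < p) (h6 : p < 6) {A D : Matrix ι ι ℂ} (hA : A.PosDef)
    (hD : D.IsHermitian) (y : ℝ) :
    p * SS p A D y = 6 * ∫ s in Ioi (0 : ℝ), s ^ (5 - p) * (fx p A D (s - y) +
      fx p A D (s + y)) := by
  have hy : ((y : ℂ) • A).IsHermitian := isHermitian_real_smul y hA.isHermitian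
  have h6' : p < ((6 : ℕ) : ℝ) := by exact_mod_cast h6
  have he : Even 6 := by decide
  obtain ⟨i1, e1⟩ := In_fx hA (hD.add hy) h0 he h6'
  obtain ⟨i2, e2⟩ := In_fx hA (hD.sub hy) h0 he h6'
  have ex : ((6 : ℕ) : ℝ) - 1 - p = 5 - p := by push_cast; ring
  rw [ex] at i1 e1 i2 e2
  unfold SS
  rw [mul_add, e1, e2, ← mul_add, ← integral_add i1 i2]
  push_cast
  congr 1
  refine setIntegral_congr_fun measurableSet_Ioi fun s _ => ?_
  show s ^ (5 - p) * fx p A (D + (y : ℂ) • A) s + s ^ (5 - p) * fx p A (D - (y : ℂ) • A) s = _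
  rw [← mul_add, fx_shift]

/-- **the fourth difference** -/
theorem s_comb {p : ℝ} (h5 : 5 < p) (h6 : p < 6) {A D : Matrix ι ι ℂ} (h : IsPair A D) {y : ℝ}
    (hy : 0 < y) :
    Integrable (fun s => fx p A D s * Wh (5 - p) y s) ∧
    p * (SS p A D (2 * y) - 4 * SS p A D y + 3 * SS p A D 0) =
      6 * ∫ s in Ioi (-(2 * y)), fx p A D s * Wh (5 - p) y s := by
  have h0 : 0 < p := by linarith
  obtain ⟨i, e⟩ := sh_sum (q := 5 - p) (by linarith) (by linarith)
    (continuous_fx h0.le h.pos.isHermitian h.herm) (fun s hs => fx_eq_zero h0 h hs) hy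
  refine ⟨i, ?_⟩
  have s1 := ss_eq h0 h6 h.pos h.herm (2 * y)
  have s2 := ss_eq h0 h6 h.pos h.herm y
  have s3 := ss_eq h0 h6 h.pos h.herm 0
  simp only [sub_zero, add_zero] at s3
  rw [← e]
  linear_combination s1 - 4 * s2 + 3 * s3

theorem ss_zero (p : ℝ) (A D : Matrix ι ι ℂ) : SS p A D 0 = 2 * In p A D 6 := by
  unfold SS
  simp only [Complex.ofReal_zero, zero_smul, add_zero, sub_zero]
  ring

end Pool.Agent.Lib_helper94.G56
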